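import Pool.Agent.Hex.Final

/-!
# MP_dd05ac_mp: `C_{s,2} = ζ_{V2}(s)` for every real `s ≥ 200`

The objects are defined in `Pool/Agent/Hex/Prob.lean`.  The minimal periodic Riesz `s`-energy of
`N` points in the cell of the hexagonal lattice of co-volume one is finite, and divided by
`N^{1+s/2}` it tends, as `N → ∞` through all integers, to the Epstein zeta value
`ζ_{V2}(s) = Σ_{v ∈ V2, v ≠ 0} |v|^{-s}`.
-/

open Set Filter
open scoped Topology

namespace Pool.Agent.Results.MP_dd05ac_mp.HexagonalConstant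

open Pool.Agent.Hex

theorem result (s : ℝ) (hs : 200 ≤ s) :
    (∀ N : ℕ, infE s V2 Ω2 N ≠ ⊤ ∧ infE s V2 Ω2 N ≠ ⊥) ∧
    Tendsto (fun N : ℕ => (infE s V2 Ω2 N).toReal / (N : ℝ) ^ (1 + s / 2)) atTop
      (𝓝 (zetaV s V2)) :=
  ⟨fun N => ⟨infE_ne_top hs N, infE_ne_bot hs N⟩, infE_limit hs⟩

end Pool.Agent.Results.MP_dd05ac_mp.HexagonalConstant
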