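import Pool.Agent.Hex.Final

/-!
# MP_dd05ac_mp: Q1 for `t = 2` and every real `s ≥ 200`

All objects of the statement are defined in `Pool/Agent/Hex/Prob.lean`: `V2`, `Ω2` (the
hexagonal lattice of co-volume one and its half-open cell), `Kp`, `Ep`, `infE` (the periodic
Riesz kernel for `s > 2`, the energy of an `N`-point configuration and the minimal energy),
`zetaV` (Epstein zeta function), `latt v₁ v₂`, `det2 v₁ v₂`.

For every real `s ≥ 200`:
* for every `m ≥ 1` the set `(1/m) V2 ∩ Ω2` has `m²` points and any enumeration of it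
  attains the minimal periodic Riesz `s`-energy over all `m²`-point configurations in `Ω2`;
* more generally, for every lattice `V` of co-volume one and every `N`, every `N`-point
  configuration has energy at least
  `N^{1+s/2} ζ_{V2}(s) - N ζ_V(s) - N(N-1)·2π/(Γ(s/2)(s-2))`; that is, the hexagonal lattice
  minimises the Riesz `s`-energy among all periodic configurations of its density.
-/

open Set

namespace Pool.Agent.Results.MP_dd05ac_mp.HexagonalOptimal

open Pool.Agent.Hex

theorem result (s : ℝ) (hs : 200 ≤ s) :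
    (∀ m : ℕ, 1 ≤ m →
      (∃ ω : Fin (m ^ 2) → ℂ, Function.Injective ω ∧
        range ω = {z | z ∈ Ω2 ∧ (m : ℂ) * z ∈ V2}) ∧
      ∀ ω : Fin (m ^ 2) → ℂ, Function.Injective ω →
        range ω = {z | z ∈ Ω2 ∧ (m : ℂ) * z ∈ V2} →
          Ep s V2 ω = infE s V2 Ω2 (m ^ 2)) ∧
    ∀ v₁ v₂ : ℂ, |det2 v₁ v₂| = 1 → ∀ (N : ℕ) (ω : Fin N → ℂ),
      (((N : ℝ) ^ (1 + s / 2) * zetaV s V2 - N * zetaV s (latt v₁ v₂) -
        (N : ℝ) * (N - 1) * (2 * Real.pi / (Real.Gamma (s / 2) * (s - 2))) : ℝ) : EReal) ≤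
        Ep s (latt v₁ v₂) ω :=
  ⟨fun m hm => ⟨star_exists m hm, fun ω hi hr => star_optimal hs m hm ω hi hr⟩,
    fun _ _ hd _ ω => Ep_lower hd hs ω⟩

end Pool.Agent.Results.MP_dd05ac_mp.HexagonalOptimal
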